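import Pool.Agent.Helper51.AN.Goals
import Pool.Agent.Helper11.RO.PC

set_option autoImplicit false

/-!
# Packet FTN: finitely generated nilpotent torsion groups are finite
-/

namespace Pool.Agent.Helper11.AN

open Pool.Agent.Helper11.Gap Pool.Agent.Helper51.AN

universe u

theorem finite_sup {G : Type*} [Group G] (K : Subgroup G) (hK : Finite K) (g : G)
    (hg : ∀ x, x ∈ K ↔ g * x * g⁻¹ ∈ K) (hfin : IsOfFinOrder g) :
    Finite (K ⊔ Subgroup.zpowers g : Subgroup G) := by
  classical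
  have hgn : g ∈ Subgroup.normalizer (K : Set G) := by
    rw [Subgroup.mem_normalizer_iff]
    exact hg
  have hnorm : ∀ y ∈ Subgroup.zpowers g, ∀ x ∈ K, y * x * y⁻¹ ∈ K := by
    have hle : Subgroup.zpowers g ≤ Subgroup.normalizer (K : Set G) := by
      rw [Subgroup.zpowers_le]
      exact hgn
    intro y hy x hx
    exact ((Subgroup.mem_normalizer_iff.1 (hle hy)) x).1 hx
  let M : Subgroup G :=
    { carrier := {x | ∃ k ∈ K, ∃ a ∈ Subgroup.zpowers g, x = k * a}
      mul_mem' := by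
        rintro _ _ ⟨k, hk, a, ha, rfl⟩ ⟨k', hk', a', ha', rfl⟩
        refine ⟨k * (a * k' * a⁻¹), K.mul_mem hk (hnorm a ha k' hk'), a * a',
          Subgroup.mul_mem _ ha ha', ?_⟩
        group
      one_mem' := ⟨1, K.one_mem, 1, Subgroup.one_mem _, by simp⟩
      inv_mem' := by
        rintro _ ⟨k, hk, a, ha, rfl⟩
        refine ⟨a⁻¹ * k⁻¹ * a⁻¹⁻¹, hnorm a⁻¹ (Subgroup.inv_mem _ ha) _ (K.inv_mem hk), a⁻¹,
          Subgroup.inv_mem _ ha, ?_⟩
        group }
  have hle : K ⊔ Subgroup.zpowers g ≤ M := by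
    refine sup_le ?_ ?_
    · intro k hk
      exact ⟨k, hk, 1, Subgroup.one_mem _, by simp⟩
    · intro a ha
      exact ⟨1, K.one_mem, a, ha, by simp⟩
  have hZ : ((Subgroup.zpowers g : Subgroup G) : Set G).Finite := by
    rw [finite_zpowers]
    exact hfin
  have hKf : (K : Set G).Finite := Set.toFinite _
  have hM : ((M : Subgroup G) : Set G).Finite := by
    refine (hKf.mul hZ).subset ?_
    rintro _ ⟨k, hk, a, ha, rfl⟩
    exact Set.mul_mem_mul hk ha
  exact (hM.subset hle).to_subtype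

theorem ftn : FtnStmt.{u} := by
  intro G _ hG hnil htor
  obtain ⟨c, hc⟩ := Subgroup.nilpotent_iff_lowerCentralSeries.1 hnil
  obtain ⟨n, H, h0, hn, hs⟩ := Pool.Agent.Helper11.RO.hasChain_top hG hc
  have key : ∀ i ≤ n, Finite (H i) := by
    intro i
    induction i with
    | zero => intro _; rw [h0]; infer_instance
    | succ i ih =>
      intro hi
      obtain ⟨g, h1, h2⟩ := hs i (Nat.lt_of_succ_le hi)
      rw [h2]
      obtain ⟨k, hk, hgk⟩ := htor g
      exact finite_sup (H i) (ih (Nat.le_of_succ_le hi)) g h1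
        (isOfFinOrder_iff_pow_eq_one.2 ⟨k, hk, hgk⟩)
  have h3 := key n le_rfl
  rw [hn] at h3
  exact Finite.of_equiv _ (Subgroup.topEquiv (G := G)).toEquiv

end Pool.Agent.Helper11.AN
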