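import Mathlib

set_option autoImplicit false

/-!
# Irreducible representations with nilpotent image: a power of every element is scalar
-/

namespace Pool.Agent.Helper11.AN

/-- In a nilpotent group the exponent of the centre bounds the exponents of all upper central
factors. -/
theorem pow_mem_ucs {Γ : Type*} [Group Γ] (d : ℕ) (hz : ∀ z ∈ Subgroup.center Γ, z ^ d = 1)
    (n : ℕ) : ∀ x ∈ Subgroup.upperCentralSeries Γ (n + 1),
      x ^ d ∈ Subgroup.upperCentralSeries Γ n := by
  induction n with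
  | zero =>
    intro x hx
    rw [zero_add, Subgroup.upperCentralSeries_one] at hx
    rw [Subgroup.upperCentralSeries_zero, Subgroup.mem_bot]
    exact hz x hx
  | succ n ih =>
    intro x hx
    rw [Subgroup.mem_upperCentralSeries_succ_iff] at hx ⊢
    intro y
    set π := QuotientGroup.mk' (Subgroup.upperCentralSeries Γ n) with hπ
    have hker : ∀ g, π g = 1 ↔ g ∈ Subgroup.upperCentralSeries Γ n := fun g => by
      rw [← MonoidHom.mem_ker, QuotientGroup.ker_mk']
    obtain ⟨u, hu⟩ : ∃ u, u = x * y * x⁻¹ * y⁻¹ := ⟨_, rfl⟩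
    have hu1 : u ∈ Subgroup.upperCentralSeries Γ (n + 1) := by rw [hu]; exact hx y
    have hu2 : u ^ d ∈ Subgroup.upperCentralSeries Γ n := ih u hu1
    have hcen : ∀ z : Γ, π u * π z = π z * π u := by
      intro z
      have h1 := (Subgroup.mem_upperCentralSeries_succ_iff).1 hu1 z
      rw [← hker, commutatorElement_def, map_mul, map_mul, map_mul, map_inv, map_inv] at h1
      have h2 : π u * π z * (π u)⁻¹ = π z := by
        rw [mul_inv_eq_one] at h1
        exact h1
      exact mul_inv_eq_iff_eq_mul.1 h2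
    have hxy : π x * π y = π u * (π y * π x) := by
      rw [hu]
      simp only [map_mul, map_inv]
      group
    have hk : ∀ k : ℕ, π x ^ k * π y = π u ^ k * (π y * π x ^ k) := by
      intro k
      induction k with
      | zero => simp
      | succ k ihk =>
        have hc : π x * π u ^ k = π u ^ k * π x := by
          have h3 : Commute (π u) (π x) := hcen x
          exact (h3.pow_left k).eq.symm
        calc π x ^ (k + 1) * π y = π x * (π x ^ k * π y) := by rw [pow_succ', mul_assoc]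
          _ = π x * π u ^ k * (π y * π x ^ k) := by rw [ihk]; group
          _ = π u ^ k * (π x * π y) * π x ^ k := by rw [hc]; group
          _ = π u ^ k * (π u * (π y * π x)) * π x ^ k := by rw [hxy]
          _ = π u ^ (k + 1) * (π y * π x ^ (k + 1)) := by
              rw [pow_succ, pow_succ']
              group
    rw [← hker, commutatorElement_def]
    simp only [map_mul, map_inv, map_pow]
    have h4 := hk d
    have h5 : π u ^ d = 1 := by rw [← map_pow, hker]; exact hu2
    rw [h5, one_mul] at h4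
    rw [h4]
    group

theorem exp_nil {Γ : Type*} [Group Γ] (d : ℕ) (hd : 0 < d)
    (hz : ∀ z ∈ Subgroup.center Γ, z ^ d = 1) (hn : Group.IsNilpotent Γ) :
    ∃ m, 0 < m ∧ ∀ g : Γ, g ^ m = 1 := by
  obtain ⟨c, hc⟩ := hn.nilpotent'
  have key : ∀ n : ℕ, ∀ x ∈ Subgroup.upperCentralSeries Γ n, x ^ (d ^ n) = 1 := by
    intro n
    induction n with
    | zero =>
      intro x hx
      rw [Subgroup.upperCentralSeries_zero, Subgroup.mem_bot] at hx
      rw [hx, one_pow]
    | succ n ih =>
      intro x hx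
      rw [pow_succ', pow_mul]
      exact ih _ (pow_mem_ucs d hz n x hx)
  exact ⟨d ^ c, pow_pos hd c, fun g => key c g (by rw [hc]; exact Subgroup.mem_top g)⟩

section

variable {K : Type*} [Field K] {G : Type*} [Group G] {W : Type*} [AddCommGroup W] [Module K W]

/-- The elements which act as scalars. -/
def Sc (ρ : G →* Module.End K W) : Subgroup G where
  carrier := {g | ∃ a : K, ρ g = a • (1 : Module.End K W)}
  one_mem' := ⟨1, by rw [map_one, one_smul]⟩
  mul_mem' := by
    rintro g h ⟨a, ha⟩ ⟨b, hb⟩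
    refine ⟨a * b, ?_⟩
    rw [map_mul, ha, hb, smul_mul_smul_comm, one_mul]
  inv_mem' := by
    rintro g ⟨a, ha⟩
    have h1 : ρ g * ρ g⁻¹ = 1 := by rw [← map_mul, mul_inv_cancel, map_one]
    by_cases h0 : a = 0
    · refine ⟨1, ?_⟩
      have h2 : (1 : Module.End K W) = 0 := by
        rw [← h1, ha, h0, zero_smul, zero_mul]
      have h3 : ∀ f : Module.End K W, f = 0 := fun f => by rw [← one_mul f, h2, zero_mul]
      rw [h3 (ρ g⁻¹), h3 ((1 : K) • (1 : Module.End K W))]
    · refine ⟨a⁻¹, ?_⟩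
      rw [ha, smul_mul_assoc, one_mul] at h1
      rw [← h1, smul_smul, inv_mul_cancel₀ h0, one_smul]

theorem Sc_normal (ρ : G →* Module.End K W) : (Sc ρ).Normal := by
  constructor
  rintro g ⟨a, ha⟩ h
  refine ⟨a, ?_⟩
  rw [map_mul, map_mul, ha, mul_smul_comm, mul_one, smul_mul_assoc, ← map_mul, mul_inv_cancel,
    map_one]

/-- Irreducible, nilpotent image: there is `m > 0` such that `g ^ m` is a scalar for all `g`. -/
theorem irr_scalar [IsAlgClosed K] [FiniteDimensional K W] [Nontrivial W]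
    (ρ : G →* Module.End K W) (c : ℕ)
    (hc : ∀ g ∈ (⊤ : Subgroup G).lowerCentralSeries c, ρ g = 1)
    (hirr : ∀ U : Submodule K W, (∀ g, ∀ u ∈ U, ρ g u ∈ U) → U = ⊥ ∨ U = ⊤) :
    ∃ m, 0 < m ∧ ∀ g, ∃ a : K, ρ (g ^ m) = a • (1 : Module.End K W) := by
  have hN := Sc_normal ρ
  set π := QuotientGroup.mk' (Sc ρ) with hπ
  have hker : ∀ g, π g = 1 ↔ g ∈ Sc ρ := fun g => by
    rw [← MonoidHom.mem_ker, QuotientGroup.ker_mk']
  set d := Module.finrank K W with hd
  have hd0 : 0 < d := Module.finrank_pos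
  have hz : ∀ z ∈ Subgroup.center (G ⧸ Sc ρ), z ^ d = 1 := by
    intro z hz
    obtain ⟨z, rfl⟩ := QuotientGroup.mk'_surjective (Sc ρ) z
    rw [← hπ] at hz ⊢
    rw [← map_pow, hker]
    -- `ρ z ρ g = a ρ g ρ z` with `a ^ d = 1`
    have h1 : ∀ g : G, ∃ a : K, a ^ d = 1 ∧ ρ z * ρ g = a • (ρ g * ρ z) := by
      intro g
      have h2 : π (z * g * (g * z)⁻¹) = 1 := by
        have := (Subgroup.mem_center_iff.1 hz) (π g)
        rw [map_mul, map_inv, map_mul, map_mul, this]
        group
      obtain ⟨a, ha⟩ := (hker _).1 h2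
      have h3 : ρ z * ρ g = a • (ρ g * ρ z) := by
        have e : z * g = (z * g * (g * z)⁻¹) * (g * z) := by group
        rw [← map_mul, e, map_mul, ha, smul_mul_assoc, one_mul, map_mul]
      refine ⟨a, ?_, h3⟩
      have h4 := congrArg LinearMap.det ha
      have hdet : LinearMap.det (ρ (z * g * (g * z)⁻¹)) = 1 := by
        have e1 : LinearMap.det (ρ (z * g * (g * z)⁻¹)) =
            ((LinearMap.det : Module.End K W →* K).comp ρ) (z * g * (g * z)⁻¹) := rfl
        obtain ⟨D, hD⟩ : ∃ D : G →* Kˣ,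
            D = MonoidHom.toHomUnits ((LinearMap.det : Module.End K W →* K).comp ρ) := ⟨_, rfl⟩
        have e2 : ((LinearMap.det : Module.End K W →* K).comp ρ) (z * g * (g * z)⁻¹) =
            ((D (z * g * (g * z)⁻¹) : Kˣ) : K) := by rw [hD]; rfl
        rw [e1, e2, map_mul, map_mul, map_inv, map_mul, mul_comm (D g) (D z), mul_inv_cancel]
        rfl
      rw [hdet, LinearMap.det_smul, map_one, mul_one] at h4
      exact h4.symm
    have h5 : ∀ g : G, ρ (z ^ d) * ρ g = ρ g * ρ (z ^ d) := by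
      intro g
      obtain ⟨a, ha, h6⟩ := h1 g
      have h7 : ∀ k : ℕ, ρ z ^ k * ρ g = a ^ k • (ρ g * ρ z ^ k) := by
        intro k
        induction k with
        | zero => simp
        | succ k ih =>
          rw [pow_succ', mul_assoc, ih, mul_smul_comm, ← mul_assoc, h6, smul_mul_assoc, smul_smul,
            mul_assoc, ← pow_succ]
      rw [map_pow, h7 d, ha, one_smul]
    obtain ⟨a, ha⟩ := Module.End.exists_eigenvalue (ρ (z ^ d))
    refine ⟨a, ?_⟩
    have h8 := hirr (Module.End.eigenspace (ρ (z ^ d)) a) (by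
      intro g u hu
      rw [Module.End.mem_eigenspace_iff] at hu ⊢
      have h9 := congrArg (fun f : Module.End K W => f u) (h5 g)
      simp only [Module.End.mul_apply] at h9
      rw [h9, hu, map_smul])
    rcases h8 with h8 | h8
    · exact absurd h8 ha
    · ext u
      have hu : u ∈ Module.End.eigenspace (ρ (z ^ d)) a := by rw [h8]; exact Submodule.mem_top
      rw [Module.End.mem_eigenspace_iff] at hu
      rw [hu]
      rfl
  have hnil : Group.IsNilpotent (G ⧸ Sc ρ) := by
    rw [Subgroup.nilpotent_iff_lowerCentralSeries]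
    refine ⟨c, ?_⟩
    have h1 := Subgroup.map_lowerCentralSeries (⊤ : Subgroup G) π c
    rw [Subgroup.map_top_of_surjective _ (QuotientGroup.mk'_surjective (Sc ρ))] at h1
    rw [← h1, Subgroup.map_eq_bot_iff, QuotientGroup.ker_mk']
    intro g hg
    exact ⟨1, by rw [hc g hg, one_smul]⟩
  obtain ⟨m, hm, hm2⟩ := exp_nil d hd0 hz hnil
  refine ⟨m, hm, fun g => ?_⟩
  have := hm2 (π g)
  rw [← map_pow, hker] at this
  exact this

/-- The eigenvalues of `g`, `ρ (g ^ m) = a`, satisfy `μ ^ m = a`. -/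
theorem pow_eq_of_eigenvalue (ρ : G →* Module.End K W) {g : G} {m : ℕ} {a μ : K}
    (ha : ρ (g ^ m) = a • (1 : Module.End K W)) (hμ : (ρ g).HasEigenvalue μ) : μ ^ m = a := by
  obtain ⟨v, hv⟩ := hμ.exists_hasEigenvector
  have h1 : ρ (g ^ m) v = μ ^ m • v := by
    rw [map_pow]
    exact hv.pow_apply m
  rw [ha] at h1
  have h2 : a • v = μ ^ m • v := h1
  exact (smul_left_injective K hv.2 h2).symm

/-- If an element has an eigenvalue which is not a root of unity, then some letter has only
eigenvalues which are no roots of unity. -/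
theorem irr_letter [IsAlgClosed K] [FiniteDimensional K W] [Nontrivial W]
    (ρ : G →* Module.End K W) (c : ℕ)
    (hc : ∀ g ∈ (⊤ : Subgroup G).lowerCentralSeries c, ρ g = 1)
    (hirr : ∀ U : Submodule K W, (∀ g, ∀ u ∈ U, ρ g u ∈ U) → U = ⊥ ∨ U = ⊤)
    (T : Set G) (hT : Subgroup.closure T = ⊤) (g : G) (μ : K) (hμ : (ρ g).HasEigenvalue μ)
    (hnt : ∀ k : ℕ, 0 < k → μ ^ k ≠ 1) :
    ∃ s ∈ T, ∀ ν : K, (ρ s).HasEigenvalue ν → ∀ k : ℕ, 0 < k → ν ^ k ≠ 1 := by
  obtain ⟨m, hm, hm2⟩ := irr_scalar ρ c hc hirr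
  have hd0 : 0 < Module.finrank K W := Module.finrank_pos
  let D : G →* Kˣ := MonoidHom.toHomUnits ((LinearMap.det : Module.End K W →* K).comp ρ)
  have hD : ∀ x, ((D x : Kˣ) : K) = LinearMap.det (ρ x) := fun x => rfl
  let DT : Subgroup G :=
    { carrier := {x | ∃ k : ℕ, 0 < k ∧ D x ^ k = 1}
      one_mem' := ⟨1, one_pos, by simp⟩
      mul_mem' := by
        rintro x y ⟨k, hk, hx⟩ ⟨l, hl, hy⟩
        refine ⟨k * l, Nat.mul_pos hk hl, ?_⟩
        rw [map_mul, mul_pow, pow_mul, hx, one_pow, one_mul, mul_comm k l, pow_mul, hy, one_pow]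
      inv_mem' := by
        rintro x ⟨k, hk, hx⟩
        exact ⟨k, hk, by rw [map_inv, inv_pow, hx, inv_one]⟩ }
  by_cases hall : T ⊆ DT
  · exfalso
    have htop : DT = ⊤ := by
      rw [eq_top_iff, ← hT, Subgroup.closure_le]
      exact hall
    obtain ⟨k, hk, hgk⟩ : g ∈ DT := by rw [htop]; exact Subgroup.mem_top g
    obtain ⟨a, ha⟩ := hm2 g
    have h1 := pow_eq_of_eigenvalue ρ ha hμ
    have h2 : LinearMap.det (ρ (g ^ m)) = a ^ Module.finrank K W := by
      rw [ha, LinearMap.det_smul, map_one, mul_one]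
    have h3 : (LinearMap.det (ρ (g ^ m))) ^ k = 1 := by
      rw [← hD, map_pow, ← Units.val_pow_eq_pow_val, ← pow_mul, mul_comm m k, pow_mul, hgk,
        one_pow, Units.val_one]
    apply hnt (m * (Module.finrank K W * k)) (Nat.mul_pos hm (Nat.mul_pos hd0 hk))
    rw [pow_mul, h1, pow_mul, ← h2, h3]
  · obtain ⟨s, hs, hsD⟩ := Set.not_subset.1 hall
    refine ⟨s, hs, fun ν hν k hk hνk => hsD ?_⟩
    obtain ⟨a, ha⟩ := hm2 s
    have h1 := pow_eq_of_eigenvalue ρ ha hν
    have h2 : LinearMap.det (ρ (s ^ m)) = a ^ Module.finrank K W := by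
      rw [ha, LinearMap.det_smul, map_one, mul_one]
    refine ⟨m * k, Nat.mul_pos hm hk, ?_⟩
    apply Units.ext
    rw [Units.val_pow_eq_pow_val, Units.val_one, pow_mul, ← Units.val_pow_eq_pow_val, ← map_pow, hD,
      h2, ← h1, ← pow_mul, ← pow_mul,
      show m * (Module.finrank K W * k) = k * (m * Module.finrank K W) by ring, pow_mul, hνk,
      one_pow]

end

end Pool.Agent.Helper11.AN
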