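import Pool.Agent.Helper11.Gap.Polycyclic

set_option autoImplicit false

/-!
# Left-normed commutators of letters
-/

namespace Pool.Agent.Helper11.AN

open scoped commutatorElement Pointwise

/-- The left-normed commutators of weight `c + 1` of elements of `T`. -/
def LN {G : Type*} [Group G] (T : Set G) : ℕ → Set G
  | 0 => T
  | c + 1 => {g | ∃ w ∈ LN T c, ∃ x ∈ T, g = ⁅w, x⁆}

/-- If all left-normed commutators of weight `c + 1` of the generators lie in the normal subgroup
`N`, then `G ⧸ N` is nilpotent of class at most `c`. -/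
theorem lcs_le_of_LN {G : Type*} [Group G] {T : Set G} (hT : Subgroup.closure T = ⊤) (c : ℕ) :
    ∀ (N : Subgroup G), N.Normal → LN T c ⊆ N → (⊤ : Subgroup G).lowerCentralSeries c ≤ N := by
  induction c with
  | zero =>
    intro N _ h
    change (⊤ : Subgroup G) ≤ N
    rw [← hT, Subgroup.closure_le]
    exact h
  | succ c ih =>
    intro N hN h
    let π := QuotientGroup.mk' N
    have hker : ∀ x, π x = 1 ↔ x ∈ N := fun x => by
      rw [← MonoidHom.mem_ker, QuotientGroup.ker_mk']
    have h1 : LN T c ⊆ (Subgroup.center (G ⧸ N)).comap π := by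
      intro w hw
      change π w ∈ Subgroup.center (G ⧸ N)
      rw [Subgroup.mem_center_iff]
      intro q
      obtain ⟨g, rfl⟩ := QuotientGroup.mk'_surjective N q
      have hle : (⊤ : Subgroup G) ≤ (Subgroup.centralizer {π w}).comap π := by
        rw [← hT, Subgroup.closure_le]
        intro x hx
        simp only [SetLike.mem_coe, Subgroup.mem_comap, Subgroup.mem_centralizer_singleton_iff]
        have h2 : π ⁅w, x⁆ = 1 := (hker _).2 (h ⟨w, hw, x, hx, rfl⟩)
        rw [map_commutatorElement, commutatorElement_eq_one_iff_mul_comm] at h2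
        exact h2.symm
      have := hle (Subgroup.mem_top g)
      simp only [Subgroup.mem_comap, Subgroup.mem_centralizer_singleton_iff] at this
      exact this
    have h2 := ih ((Subgroup.center (G ⧸ N)).comap π) inferInstance h1
    change ⁅(⊤ : Subgroup G).lowerCentralSeries c, ⊤⁆ ≤ N
    rw [Subgroup.commutator_le]
    intro x hx g _
    rw [← hker, map_commutatorElement, commutatorElement_eq_one_iff_mul_comm]
    exact ((Subgroup.mem_center_iff.1 (h2 hx)) (π g)).symm

/-- Left-normed commutators lie in the lower central series. -/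
theorem LN_subset_lcs {G : Type*} [Group G] (T : Set G) (c : ℕ) :
    LN T c ⊆ (⊤ : Subgroup G).lowerCentralSeries c := by
  induction c with
  | zero => intro x _; exact Subgroup.mem_top x
  | succ c ih =>
    rintro _ ⟨w, hw, x, _, rfl⟩
    exact Subgroup.commutator_mem_commutator (ih hw) (Subgroup.mem_top x)

/-- Their lengths. -/
theorem LN_subset_pow {G : Type*} [Group G] [DecidableEq G] (T : Finset G)
    (hinv : ∀ x ∈ T, x⁻¹ ∈ T) (c : ℕ) :
    ∀ w ∈ LN (T : Set G) c, w ∈ T ^ (3 * 2 ^ c - 2) ∧ w⁻¹ ∈ T ^ (3 * 2 ^ c - 2) := by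
  induction c with
  | zero =>
    intro w hw
    have hw' : w ∈ T := hw
    norm_num
    exact ⟨hw', hinv w hw'⟩
  | succ c ih =>
    rintro _ ⟨w, hw, x, hx, rfl⟩
    obtain ⟨h1, h2⟩ := ih w hw
    have hx' : x ∈ T := hx
    have hpos : 1 ≤ 2 ^ c := Nat.one_le_two_pow
    have e : 3 * 2 ^ (c + 1) - 2 = ((3 * 2 ^ c - 2) + 1) + ((3 * 2 ^ c - 2) + 1) := by
      rw [pow_succ]; omega
    rw [e, commutatorElement_def]
    constructor
    · have h3 : w * x * w⁻¹ * x⁻¹ = (w * x) * (w⁻¹ * x⁻¹) := by group
      rw [h3, pow_add, pow_add, pow_one]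
      exact Finset.mul_mem_mul (Finset.mul_mem_mul h1 hx') (Finset.mul_mem_mul h2 (hinv x hx'))
    · have h3 : (w * x * w⁻¹ * x⁻¹)⁻¹ = (x * w) * (x⁻¹ * w⁻¹) := by group
      rw [h3, pow_add, add_comm (3 * 2 ^ c - 2) 1, pow_add, pow_one]
      exact Finset.mul_mem_mul (Finset.mul_mem_mul hx' h1) (Finset.mul_mem_mul (hinv x hx') h2)

end Pool.Agent.Helper11.AN
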