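import Pool.Agent.Helper51.AN.Goals
import Pool.Agent.Helper17.GA.FBN

set_option autoImplicit false

/-!
# Packet VNA: unipotent action of a subgroup of finite index gives virtual nilpotency
-/

namespace Pool.Agent.Helper11.AN

open Pool.Agent.Helper94.GA Pool.Agent.Helper73.GA Pool.Agent.Helper51.AN
open scoped commutatorElement

universe u

theorem vna (hU : UnpStmt.{u, 0, u}) : VnaStmt.{u} := by
  classical
  intro H _ hH A hN hA hfg c hc hVN
  by_contra hcon
  push Not at hcon
  have hfin : Module.Finite (AlgebraicClosure ℚ) (VV A) := finV A hfg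
  have hnil : NilA (rho A) := by
    refine ⟨c, fun g hg => ?_⟩
    rw [rho_apply]
    exact TT_mem A hA g⁻¹ (A.inv_mem (hc hg))
  obtain ⟨U, hUf, n, F, hF0, hFn, hF⟩ := hU H (AlgebraicClosure ℚ) (VV A) (rho A) hH hnil hcon
  have hF' : ∀ i, ∀ g ∈ U, ∀ x ∈ F (i + 1), TT A g x - x ∈ F i := by
    intro i g hg x hx
    have h1 := hF i g⁻¹ (U.inv_mem hg) x hx
    rw [rho_apply, inv_inv] at h1
    exact h1
  have hfinite := FF_finite A hA hfg
  apply hVN
  refine Pool.Agent.Helper17.GA.FBN H (FF A) U hfinite hUf ⟨c + n, fun x hx0 hx => ?_⟩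
  have hlcs : ∀ i, x i ≤ (⊤ : Subgroup H).lowerCentralSeries i := by
    intro i
    induction i with
    | zero => exact le_top
    | succ i ih =>
      rw [hx i]
      exact Subgroup.commutator_mono ih le_top
  have hxA : ∀ j, x (c + j) ≤ A := fun j =>
    ((hlcs (c + j)).trans ((⊤ : Subgroup H).lowerCentralSeries_antitone (Nat.le_add_right c j))).trans
      hc
  have key : ∀ j, ∀ f ∈ F j, x (c + j) ≤ ZZ A f := by
    intro j
    induction j with
    | zero =>
      intro f hf a ha
      have hf0 : f = 0 := by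
        rw [hF0] at hf
        exact (Submodule.mem_bot _).1 hf
      exact ⟨hxA 0 ha, by rw [hf0]; rfl⟩
    | succ j ih =>
      intro f hf
      change x (c + j + 1) ≤ ZZ A f
      rw [hx (c + j), Subgroup.commutator_le]
      intro b hb u hu
      have hbA : b ∈ A := hxA j hb
      obtain ⟨_, h1⟩ := ih _ (hF' j u hu f hf) hb
      have hcA : u * b * u⁻¹ ∈ A := hN.conj_mem b hbA u
      have h2 : (TT A u f) (Additive.ofMul ⟨b, hbA⟩) = f (Additive.ofMul ⟨u * b * u⁻¹, hcA⟩) := rfl
      have h3 : (TT A u f) (Additive.ofMul ⟨b, hbA⟩) - f (Additive.ofMul ⟨b, hbA⟩) = 0 := h1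
      have hmem : ⁅b, u⁆ ∈ A := by
        have : ⁅b, u⁆ = b * (u * b * u⁻¹)⁻¹ := by rw [commutatorElement_def]; group
        rw [this]
        exact A.mul_mem hbA (A.inv_mem hcA)
      refine ⟨hmem, ?_⟩
      have h4 : (Additive.ofMul (⟨⁅b, u⁆, hmem⟩ : A)) =
          Additive.ofMul (⟨b, hbA⟩ : A) + -Additive.ofMul (⟨u * b * u⁻¹, hcA⟩ : A) := by
        change Additive.ofMul _ = Additive.ofMul ((⟨b, hbA⟩ : A) * (⟨u * b * u⁻¹, hcA⟩ : A)⁻¹)
        congr 1
        apply Subtype.ext
        change ⁅b, u⁆ = b * (u * b * u⁻¹)⁻¹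
        rw [commutatorElement_def]; group
      rw [h4, map_add, map_neg, ← h2]
      linear_combination -h3
  intro a ha
  have h1 : ∀ f : VV A, a ∈ ZZ A f := fun f => key n f (by rw [hFn]; trivial) ha
  exact ⟨(h1 0).1, fun f => (h1 f).2⟩

end Pool.Agent.Helper11.AN
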